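import Mathlib

/-!
# A mean square lower bound for functions with a double pole
-/

open Complex MeasureTheory Set Metric Real

namespace Pool.Agent.Helper80.Bieb

/-- The pointwise inequality behind the mean square bound. -/
lemma norm_sq_lower (r : ℝ) (hr : 0 < r) (z b e : ℂ) (hz : ‖z‖ = r) :
    (r ^ 4)⁻¹ + ‖b‖ ^ 2 +
        (2 * (starRingEnd ℂ b) * e - 2 * ((r : ℂ) ^ 4)⁻¹ * (z ^ 2 * (b + e))).re
      ≤ ‖-(z ^ 2)⁻¹ + b + e‖ ^ 2 := by
  have hz0 : z ≠ 0 := by
    rintro rfl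
    simp at hz
    exact hr.ne hz
  have hn : ∀ w : ℂ, ‖w‖ ^ 2 = w.re ^ 2 + w.im ^ 2 := by
    intro w
    rw [← Complex.normSq_eq_norm_sq, Complex.normSq_apply]
    ring
  have hr2 : z.re ^ 2 + z.im ^ 2 = r ^ 2 := by
    rw [← hn, hz]
  -- the conjugate of `(z^2)⁻¹` is `z^2 / r^4`
  have hconj : (z ^ 2)⁻¹ = (starRingEnd ℂ (z ^ 2)) * ((r : ℂ) ^ 4)⁻¹ := by
    have h1 : (starRingEnd ℂ (z ^ 2)) * z ^ 2 = (r : ℂ) ^ 4 := by
      rw [← Complex.normSq_eq_conj_mul_self, Complex.normSq_eq_norm_sq, norm_pow, hz]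
      push_cast
      ring
    rw [← h1]
    field_simp
    have : (starRingEnd ℂ z) ≠ 0 := by simpa using hz0
    field_simp
  set u := z ^ 2 with hu
  have hun : u.re ^ 2 + u.im ^ 2 = r ^ 4 := by
    rw [← hn, hu, norm_pow, hz]
    ring
  have hrr : ((r : ℂ) ^ 4)⁻¹ = (((r ^ 4)⁻¹ : ℝ) : ℂ) := by push_cast; ring
  rw [hconj, hrr]
  set q := (r ^ 4)⁻¹ with hq
  have hqr : q * r ^ 4 = 1 := by
    rw [hq]; field_simp
  rw [hn, hn]
  simp only [Complex.add_re, Complex.add_im, Complex.neg_re, Complex.neg_im, Complex.mul_re,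
    Complex.mul_im, Complex.conj_re, Complex.conj_im, Complex.ofReal_re, Complex.ofReal_im,
    Complex.sub_re, Complex.re_ofNat, Complex.im_ofNat]
  have hq2 : q ^ 2 * (u.re ^ 2 + u.im ^ 2) = q := by
    rw [hun]
    calc q ^ 2 * r ^ 4 = q * (q * r ^ 4) := by ring
      _ = q := by rw [hqr, mul_one]
  nlinarith [sq_nonneg e.re, sq_nonneg e.im, hq2]

lemma circleAverage_lower {e : ℂ → ℂ} (he : DifferentiableOn ℂ e (ball 0 1)) (he0 : e 0 = 0)
    (b : ℂ) {r : ℝ} (hr : 0 < r) (hr1 : r < 1) :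
    (r ^ 4)⁻¹ + ‖b‖ ^ 2 ≤ circleAverage (fun z => ‖-(z ^ 2)⁻¹ + b + e z‖ ^ 2) 0 r := by
  set K : ℂ → ℂ := fun z =>
    2 * (starRingEnd ℂ b) * e z - 2 * ((r : ℂ) ^ 4)⁻¹ * (z ^ 2 * (b + e z)) with hK
  have hsub : closedBall (0 : ℂ) |r| ⊆ ball 0 1 := by
    rw [abs_of_pos hr]
    exact closedBall_subset_ball hr1
  have hKd : DifferentiableOn ℂ K (ball 0 1) := by
    rw [hK]
    fun_prop
  have hK0 : K 0 = 0 := by simp [hK, he0]
  have hKavg : circleAverage K 0 r = 0 := by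
    have h : DiffContOnCl ℂ K (ball 0 |r|) :=
      ⟨hKd.mono (ball_subset_closedBall.trans hsub),
        hKd.continuousOn.mono (closure_ball_subset_closedBall.trans hsub)⟩
    rw [h.circleAverage, hK0]
  have hsph : sphere (0 : ℂ) |r| ⊆ ball 0 1 := sphere_subset_closedBall.trans hsub
  have hKi : CircleIntegrable K 0 r :=
    (hKd.continuousOn.mono hsph).circleIntegrable'
  have hKre : circleAverage (fun z => (K z).re) 0 r = 0 := by
    have h := Complex.reCLM.circleAverage_comp_comm (f := K) (c := 0) (R := r) hKi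
    have h2 : (Complex.reCLM ∘ K) = fun z => (K z).re := rfl
    rw [h2, hKavg] at h
    rw [h]
    simp
  have hi1 : CircleIntegrable (fun z => (r ^ 4)⁻¹ + ‖b‖ ^ 2 + (K z).re) 0 r := by
    apply ContinuousOn.circleIntegrable'
    refine ContinuousOn.add continuousOn_const ?_
    exact Complex.continuous_re.comp_continuousOn (hKd.continuousOn.mono hsph)
  have hi2 : CircleIntegrable (fun z => ‖-(z ^ 2)⁻¹ + b + e z‖ ^ 2) 0 r := by
    apply ContinuousOn.circleIntegrable'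
    refine ContinuousOn.pow (ContinuousOn.norm ?_) 2
    refine ContinuousOn.add (ContinuousOn.add (ContinuousOn.neg ?_) continuousOn_const)
      (he.continuousOn.mono hsph)
    refine ContinuousOn.inv₀ (by fun_prop) ?_
    intro z hz
    have : ‖z‖ = r := by simpa [abs_of_pos hr] using hz
    have hz0 : z ≠ 0 := by
      rintro rfl
      simp at this
      exact hr.ne this
    exact pow_ne_zero 2 hz0
  have hmono : circleAverage (fun z => (r ^ 4)⁻¹ + ‖b‖ ^ 2 + (K z).re) 0 r ≤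
      circleAverage (fun z => ‖-(z ^ 2)⁻¹ + b + e z‖ ^ 2) 0 r := by
    apply circleAverage_mono hi1 hi2
    intro z hz
    have hz' : ‖z‖ = r := by simpa [abs_of_pos hr] using hz
    exact norm_sq_lower r hr z b (e z) hz'
  have hsum : circleAverage (fun z => (r ^ 4)⁻¹ + ‖b‖ ^ 2 + (K z).re) 0 r
      = (r ^ 4)⁻¹ + ‖b‖ ^ 2 := by
    have h := circleAverage_add (f₁ := fun _ => (r ^ 4)⁻¹ + ‖b‖ ^ 2) (f₂ := fun z => (K z).re)
      (c := 0) (R := r) (circleIntegrable_const _ _ _)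
      (by
        apply ContinuousOn.circleIntegrable'
        exact Complex.continuous_re.comp_continuousOn (hKd.continuousOn.mono hsph))
    have h2 : ((fun _ => (r ^ 4)⁻¹ + ‖b‖ ^ 2) + fun z => (K z).re : ℂ → ℝ)
        = fun z => (r ^ 4)⁻¹ + ‖b‖ ^ 2 + (K z).re := rfl
    rw [h2, hKre, circleAverage_const] at h
    rw [h]
    simp
  rw [hsum] at hmono
  exact hmono

end Pool.Agent.Helper80.Bieb
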