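import Mathlib
import Pool.Agent.Helper80.Bieb.Mean

/-!
# The area of the image of a ring: lower bound in polar coordinates
-/

open Complex MeasureTheory Set Metric Real

namespace Pool.Agent.Helper80.Bieb

/-- The open ring. -/
def ring (ρ s : ℝ) : Set ℂ := {z | ρ < ‖z‖ ∧ ‖z‖ < s}

lemma isOpen_ring (ρ s : ℝ) : IsOpen (ring ρ s) :=
  (isOpen_lt continuous_const continuous_norm).inter (isOpen_lt continuous_norm continuous_const)

lemma polar_eq_circleMap (r t : ℝ) : Complex.polarCoord.symm (r, t) = circleMap 0 r t := by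
  rw [Complex.polarCoord_symm_apply, circleMap, Complex.exp_mul_I]
  push_cast
  ring

lemma integral_value {ρ s : ℝ} (hρ : 0 < ρ) (hρs : ρ < s) (c : ℝ) :
    ∫ r in ρ..s, r * (2 * π * ((r ^ 4)⁻¹ + c))
      = π * ((ρ ^ 2)⁻¹ - (s ^ 2)⁻¹) + π * c * (s ^ 2 - ρ ^ 2) := by
  have hpos : ∀ r ∈ Set.uIcc ρ s, 0 < r := by
    intro r hr
    rw [Set.uIcc_of_le hρs.le] at hr
    exact hρ.trans_le hr.1
  have hderiv : ∀ r ∈ Set.uIcc ρ s,
      HasDerivAt (fun r : ℝ => π * (-(r ^ 2)⁻¹) + π * c * r ^ 2)
        (r * (2 * π * ((r ^ 4)⁻¹ + c))) r := by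
    intro r hr
    have hr0 := hpos r hr
    have h1 : HasDerivAt (fun r : ℝ => r ^ 2) (2 * r) r := by
      simpa using hasDerivAt_pow 2 r
    have h2 : HasDerivAt (fun r : ℝ => (r ^ 2)⁻¹) (-(2 * r) / (r ^ 2) ^ 2) r :=
      h1.inv (pow_ne_zero 2 hr0.ne')
    have h3 := (h2.neg.const_mul π).add (h1.const_mul (π * c))
    refine h3.congr_deriv ?_
    field_simp
  rw [intervalIntegral.integral_eq_sub_of_hasDerivAt hderiv]
  · ring
  · apply ContinuousOn.intervalIntegrable
    refine ContinuousOn.mul continuousOn_id ?_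
    refine ContinuousOn.mul continuousOn_const (ContinuousOn.add ?_ continuousOn_const)
    refine ContinuousOn.inv₀ (by fun_prop) ?_
    intro r hr
    exact pow_ne_zero 4 (hpos r hr).ne'

lemma area_lower {e : ℂ → ℂ} (he : DifferentiableOn ℂ e (ball 0 1)) (he0 : e 0 = 0)
    (b : ℂ) {ρ s : ℝ} (hρ : 0 < ρ) (hρs : ρ < s) (hs : s < 1) :
    ENNReal.ofReal (π * ((ρ ^ 2)⁻¹ - (s ^ 2)⁻¹) + π * ‖b‖ ^ 2 * (s ^ 2 - ρ ^ 2))
      ≤ ∫⁻ z in ring ρ s, ENNReal.ofReal (‖-(z ^ 2)⁻¹ + b + e z‖ ^ 2) := by
  set g : ℂ → ℝ := fun z => ‖-(z ^ 2)⁻¹ + b + e z‖ ^ 2 with hg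
  have hne : ∀ z ∈ ring ρ s, z ≠ 0 := by
    rintro z hz rfl
    have := hz.1
    simp at this
    linarith
  have hgc : ContinuousOn g (ring ρ s) := by
    rw [hg]
    refine ContinuousOn.pow (ContinuousOn.norm ?_) 2
    refine ContinuousOn.add (ContinuousOn.add (ContinuousOn.neg ?_) continuousOn_const)
      (he.continuousOn.mono ?_)
    · refine ContinuousOn.inv₀ (by fun_prop) ?_
      intro z hz
      exact pow_ne_zero 2 (hne z hz)
    · intro z hz
      have := hz.2
      simp only [mem_ball, dist_zero_right]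
      linarith
  have hmeas : MeasurableSet (ring ρ s) := (isOpen_ring ρ s).measurableSet
  set f : ℂ → ENNReal := (ring ρ s).indicator (fun z => ENNReal.ofReal (g z)) with hf
  have hfm : Measurable f := by
    have h1 : Measurable ((ring ρ s).indicator g) := by
      classical
      have := hgc.measurable_piecewise (g := fun _ => (0 : ℝ)) continuousOn_const hmeas
      rw [← Set.piecewise_eq_indicator]
      exact this
    have h2 : f = fun z => ENNReal.ofReal ((ring ρ s).indicator g z) := by
      funext z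
      rw [hf]
      by_cases hz : z ∈ ring ρ s
      · simp [hz]
      · simp [hz]
    rw [h2]
    exact h1.ennreal_ofReal
  rw [← lintegral_indicator hmeas]
  change _ ≤ ∫⁻ z, f z
  rw [← Complex.lintegral_comp_polarCoord_symm f, polarCoord_target]
  have hFm : Measurable (fun p : ℝ × ℝ =>
      ENNReal.ofReal p.1 • f (Complex.polarCoord.symm p)) := by
    refine Measurable.smul (ENNReal.measurable_ofReal.comp measurable_fst) (hfm.comp ?_)
    have : Continuous (fun p : ℝ × ℝ => Complex.polarCoord.symm p) := by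
      simp only [Complex.polarCoord_symm_apply]
      fun_prop
    exact this.measurable
  have hsub : Ioo ρ s ×ˢ Ioo (-π) π ⊆ Ioi (0 : ℝ) ×ˢ Ioo (-π) π := by
    apply Set.prod_mono_left
    intro x hx
    exact hρ.trans hx.1
  refine le_trans ?_ (lintegral_mono_set hsub)
  rw [Measure.volume_eq_prod, ← Measure.prod_restrict, lintegral_prod _ hFm.aemeasurable]
  have hinner : ∀ r ∈ Ioo ρ s, ENNReal.ofReal (r * (2 * π * ((r ^ 4)⁻¹ + ‖b‖ ^ 2)))
      ≤ ∫⁻ t in Ioo (-π) π, ENNReal.ofReal r • f (Complex.polarCoord.symm (r, t)) := by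
    intro r hr
    have hr0 : 0 < r := hρ.trans hr.1
    have hr1 : r < 1 := hr.2.trans hs
    have hmem : ∀ t, circleMap 0 r t ∈ ring ρ s := by
      intro t
      have : ‖circleMap 0 r t‖ = r := by simp [abs_of_pos hr0]
      exact ⟨by rw [this]; exact hr.1, by rw [this]; exact hr.2⟩
    have h1 : ∀ t, ENNReal.ofReal r • f (Complex.polarCoord.symm (r, t))
        = ENNReal.ofReal r * ENNReal.ofReal (g (circleMap 0 r t)) := by
      intro t
      rw [polar_eq_circleMap, hf, Set.indicator_of_mem (hmem t), smul_eq_mul]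
    simp only [h1]
    have hcont : Continuous (fun t => g (circleMap 0 r t)) := by
      rw [← continuousOn_univ]
      exact hgc.comp (continuous_circleMap 0 r).continuousOn (fun t _ => hmem t)
    rw [lintegral_const_mul _ hcont.measurable.ennreal_ofReal, ENNReal.ofReal_mul hr0.le]
    gcongr
    have hint : IntegrableOn (fun t => g (circleMap 0 r t)) (Ioo (-π) π) :=
      (hcont.integrableOn_Icc (a := -π) (b := π)).mono_set Ioo_subset_Icc_self
    rw [← ofReal_integral_eq_lintegral_ofReal hint]
    · apply ENNReal.ofReal_le_ofReal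
      have h2 : ∫ t in Ioo (-π) π, g (circleMap 0 r t) = 2 * π * circleAverage g 0 r := by
        rw [← integral_Ioc_eq_integral_Ioo,
          ← intervalIntegral.integral_of_le (by linarith [Real.pi_pos])]
        have hper : Function.Periodic (fun t => g (circleMap 0 r t)) (2 * π) := by
          intro t
          simp only
          rw [periodic_circleMap 0 r t]
        have h3 := hper.intervalIntegral_add_eq (-π) 0
        have h4 : -π + 2 * π = π := by ring
        rw [h4, zero_add] at h3
        rw [h3, circleAverage, smul_eq_mul]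
        field_simp
      rw [h2]
      gcongr
      exact circleAverage_lower he he0 b hr0 hr1
    · refine Filter.Eventually.of_forall (fun t => ?_)
      simp only [Pi.zero_apply, hg]
      positivity
  refine le_trans ?_ (setLIntegral_mono' measurableSet_Ioo hinner)
  have hcontI : ContinuousOn (fun r : ℝ => r * (2 * π * ((r ^ 4)⁻¹ + ‖b‖ ^ 2))) (Icc ρ s) := by
    refine ContinuousOn.mul continuousOn_id ?_
    refine ContinuousOn.mul continuousOn_const (ContinuousOn.add ?_ continuousOn_const)
    refine ContinuousOn.inv₀ (by fun_prop) ?_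
    intro r hr
    exact pow_ne_zero 4 (hρ.trans_le hr.1).ne'
  rw [← ofReal_integral_eq_lintegral_ofReal
    ((hcontI.integrableOn_Icc).mono_set Ioo_subset_Icc_self)]
  · rw [← integral_Ioc_eq_integral_Ioo, ← intervalIntegral.integral_of_le hρs.le,
      integral_value hρ hρs]
  · filter_upwards [ae_restrict_mem measurableSet_Ioo] with r hr
    have hr0 : 0 < r := hρ.trans hr.1
    simp only [Pi.zero_apply]
    positivity

end Pool.Agent.Helper80.Bieb
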