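import Mathlib

/-!
# The area of the image of a ring: upper bound
-/

open Complex MeasureTheory Set Metric Real

namespace Pool.Agent.Helper80.Bieb

lemma isPreconnected_compl_closedBall {R : ℝ} (hR : 0 < R) :
    IsPreconnected (closedBall (0 : ℂ) R)ᶜ := by
  have h : (closedBall (0 : ℂ) R)ᶜ = Complex.exp '' {ζ : ℂ | Real.log R < ζ.re} := by
    ext w
    simp only [mem_compl_iff, mem_closedBall, dist_zero_right, not_le, Set.mem_image]
    constructor
    · intro hw
      have hw0 : w ≠ 0 := by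
        rintro rfl
        simp at hw
        linarith
      refine ⟨Complex.log w, ?_, Complex.exp_log hw0⟩
      change Real.log R < (Complex.log w).re
      rw [Complex.log_re]
      exact Real.log_lt_log hR hw
    · rintro ⟨ζ, hζ, rfl⟩
      rw [Complex.norm_exp]
      have : Real.log R < ζ.re := hζ
      calc R = Real.exp (Real.log R) := (Real.exp_log hR).symm
        _ < Real.exp ζ.re := Real.exp_lt_exp.mpr this
  rw [h]
  exact ((convex_halfSpace_re_gt _).isPreconnected).image _ Complex.continuous_exp.continuousOn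

lemma cover {Φ : ℂ → ℂ} {ρ R : ℝ} (hρ : 0 < ρ) (hR : 0 < R)
    (hc : ContinuousOn Φ (closedBall 0 ρ \ {0}))
    (hopen : IsOpen (Φ '' (ball 0 ρ \ {0})))
    (hb : ∀ z, ‖z‖ = ρ → ‖Φ z‖ ≤ R)
    (hinf : ∀ N : ℝ, ∃ t : ℝ, 0 < t ∧ ∀ z : ℂ, z ≠ 0 → ‖z‖ < t → N < ‖Φ z‖) :
    (closedBall (0 : ℂ) R)ᶜ ⊆ Φ '' (ball 0 ρ \ {0}) := by
  apply (isPreconnected_compl_closedBall hR).subset_of_closure_inter_subset hopen
  · obtain ⟨t, ht, h⟩ := hinf R
    have hm : 0 < min (t / 2) (ρ / 2) := by positivity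
    set z : ℂ := ((min (t / 2) (ρ / 2) : ℝ) : ℂ) with hz
    have hzn : ‖z‖ = min (t / 2) (ρ / 2) := by
      rw [hz, Complex.norm_real, Real.norm_eq_abs, abs_of_pos hm]
    have hz0 : z ≠ 0 := by
      rw [hz]
      exact_mod_cast hm.ne'
    have h1 : ‖z‖ < t := by
      rw [hzn]
      exact (min_le_left _ _).trans_lt (by linarith)
    have h2 : ‖z‖ < ρ := by
      rw [hzn]
      exact (min_le_right _ _).trans_lt (by linarith)
    refine ⟨Φ z, ?_, ⟨z, ⟨by simpa using h2, by simpa using hz0⟩, rfl⟩⟩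
    simpa using h z hz0 h1
  · rintro x ⟨hx, hxR⟩
    obtain ⟨t, ht, h⟩ := hinf (‖x‖ + 1)
    set P : Set ℂ := Φ '' (closedBall 0 ρ \ ball 0 t) with hP
    have hcomp : IsCompact (closedBall (0 : ℂ) ρ \ ball 0 t) :=
      (isCompact_closedBall 0 ρ).diff isOpen_ball
    have hsub : closedBall (0 : ℂ) ρ \ ball 0 t ⊆ closedBall 0 ρ \ {0} := by
      rintro z ⟨hz1, hz2⟩
      refine ⟨hz1, ?_⟩
      rintro rfl
      exact hz2 (mem_ball_self ht)
    have hPc : IsClosed P := (hcomp.image_of_continuousOn (hc.mono hsub)).isClosed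
    have hQc : IsClosed {y : ℂ | ‖x‖ + 1 ≤ ‖y‖} := isClosed_le continuous_const continuous_norm
    have hcov : Φ '' (ball 0 ρ \ {0}) ⊆ P ∪ {y : ℂ | ‖x‖ + 1 ≤ ‖y‖} := by
      rintro _ ⟨z, ⟨hz1, hz2⟩, rfl⟩
      by_cases hzt : ‖z‖ < t
      · right
        exact (h z hz2 hzt).le
      · left
        exact ⟨z, ⟨ball_subset_closedBall hz1, by simpa using hzt⟩, rfl⟩
    have := closure_minimal hcov (hPc.union hQc) hx
    rcases this with hxP | hxQ
    · obtain ⟨z, ⟨hz1, hz2⟩, rfl⟩ := hxP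
      have hz1' : ‖z‖ ≤ ρ := by simpa using hz1
      rcases hz1'.lt_or_eq with hlt | heq
      · exact ⟨z, ⟨by simpa using hlt, (hsub ⟨hz1, hz2⟩).2⟩, rfl⟩
      · exfalso
        have := hb z heq
        apply hxR
        simpa using this
    · exfalso
      have : ‖x‖ + 1 ≤ ‖x‖ := hxQ
      linarith

lemma isOpen_image_of_injOn {F : ℂ → ℂ} {W : Set ℂ} (hW : IsOpen W)
    (hF : DifferentiableOn ℂ F W) (hi : InjOn F W) : IsOpen (F '' W) := by
  rw [isOpen_iff_mem_nhds]
  rintro _ ⟨z, hz, rfl⟩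
  have han : AnalyticAt ℂ F z := hF.analyticAt (hW.mem_nhds hz)
  rcases han.eventually_constant_or_nhds_le_map_nhds with h | h
  · exfalso
    -- locally constant contradicts injectivity
    have h2 : ∀ᶠ w in nhds z, F w = F z ∧ w ∈ W := h.and (hW.mem_nhds hz)
    obtain ⟨ε, hε, hball⟩ := Metric.eventually_nhds_iff.mp h2
    set w : ℂ := z + ((ε / 2 : ℝ) : ℂ) with hw
    have hd : dist w z < ε := by
      rw [hw, dist_eq_norm]
      simp only [add_sub_cancel_left, Complex.norm_real, Real.norm_eq_abs]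
      rw [abs_of_pos (by linarith)]
      linarith
    have := hball hd
    have h3 := hi this.2 hz this.1
    rw [hw] at h3
    have h4 : ((ε / 2 : ℝ) : ℂ) = 0 := by
      linear_combination h3
    have : ε / 2 = 0 := by exact_mod_cast h4
    linarith
  · exact h (Filter.image_mem_map (hW.mem_nhds hz))

/-- The real linear map `ξ ↦ ξ + c * conj ξ`. -/
noncomputable def Amap (c : ℂ) : ℂ →L[ℝ] ℂ :=
  ContinuousLinearMap.id ℝ ℂ +
    (ContinuousLinearMap.mul ℝ ℂ c).comp (Complex.conjCLE : ℂ →L[ℝ] ℂ)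

lemma Amap_apply (c ξ : ℂ) : Amap c ξ = ξ + c * (starRingEnd ℂ ξ) := by
  simp [Amap]

lemma det_Amap (c : ℂ) : (Amap c).det = 1 - ‖c‖ ^ 2 := by
  rw [ContinuousLinearMap.det, ← LinearMap.det_toMatrix Complex.basisOneI, Matrix.det_fin_two]
  simp only [LinearMap.toMatrix_apply, ContinuousLinearMap.coe_coe, Amap_apply,
    Complex.coe_basisOneI, Complex.coe_basisOneI_repr]
  rw [← Complex.normSq_eq_norm_sq, Complex.normSq_apply]
  simp
  ring

lemma det_mul (a : ℂ) :
    (((ContinuousLinearMap.toSpanSingleton ℂ a : ℂ →L[ℂ] ℂ)).restrictScalars ℝ).det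
      = ‖a‖ ^ 2 := by
  rw [ContinuousLinearMap.det, ← LinearMap.det_toMatrix Complex.basisOneI, Matrix.det_fin_two]
  simp only [LinearMap.toMatrix_apply, ContinuousLinearMap.coe_coe,
    Complex.coe_basisOneI, Complex.coe_basisOneI_repr]
  rw [← Complex.normSq_eq_norm_sq, Complex.normSq_apply]
  simp

end Pool.Agent.Helper80.Bieb
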