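import Mathlib
import Pool.Agent.Helper80.Bieb.AreaLower
import Pool.Agent.Helper80.Bieb.AreaUpper

/-!
# The area theorem for `1/z + b z + O(z^2)`
-/

open Complex MeasureTheory Set Metric Real

namespace Pool.Agent.Helper80.Bieb

/-- The inverse of `Amap c`. -/
noncomputable def Bmap (c η : ℂ) : ℂ := (η - c * (starRingEnd ℂ η)) / (1 - ((‖c‖ ^ 2 : ℝ) : ℂ))

lemma one_sub_ne {c : ℂ} (hc : ‖c‖ ≤ 1 / 2) : (1 : ℂ) - ((‖c‖ ^ 2 : ℝ) : ℂ) ≠ 0 := by
  have h : (1 : ℝ) - ‖c‖ ^ 2 ≠ 0 := by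
    have : ‖c‖ ^ 2 ≤ (1 / 2) ^ 2 := by
      gcongr
    have h2 : 0 < 1 - ‖c‖ ^ 2 := by linarith
    exact h2.ne'
  exact_mod_cast h

lemma mul_conj_norm (c : ℂ) : c * (starRingEnd ℂ c) = ((‖c‖ ^ 2 : ℝ) : ℂ) := by
  rw [Complex.mul_conj, Complex.normSq_eq_norm_sq]

lemma Amap_Bmap {c : ℂ} (hc : ‖c‖ ≤ 1 / 2) (η : ℂ) : Amap c (Bmap c η) = η := by
  have h := one_sub_ne hc
  have h2 := mul_conj_norm c
  rw [Amap_apply, Bmap]
  simp only [map_div₀, map_sub, map_mul, map_one, Complex.conj_ofReal, Complex.conj_conj]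
  field_simp
  linear_combination (-η) * h2

lemma Bmap_Amap {c : ℂ} (hc : ‖c‖ ≤ 1 / 2) (ξ : ℂ) : Bmap c (Amap c ξ) = ξ := by
  have h := one_sub_ne hc
  have h2 := mul_conj_norm c
  rw [Amap_apply, Bmap]
  simp only [map_add, map_mul, Complex.conj_conj]
  field_simp
  linear_combination (-ξ) * h2

lemma Bmap_add (c η₁ η₂ : ℂ) : Bmap c (η₁ + η₂) = Bmap c η₁ + Bmap c η₂ := by
  simp only [Bmap, map_add]
  ring

lemma norm_Bmap {c : ℂ} (hc : ‖c‖ ≤ 1 / 2) (η : ℂ) : ‖Bmap c η‖ ≤ 2 * ‖η‖ := by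
  have h1 : ‖η - c * (starRingEnd ℂ η)‖ ≤ (1 + ‖c‖) * ‖η‖ := by
    calc ‖η - c * (starRingEnd ℂ η)‖ ≤ ‖η‖ + ‖c * (starRingEnd ℂ η)‖ := norm_sub_le _ _
      _ = (1 + ‖c‖) * ‖η‖ := by rw [norm_mul, RCLike.norm_conj]; ring
  have h2 : ‖(1 : ℂ) - ((‖c‖ ^ 2 : ℝ) : ℂ)‖ = 1 - ‖c‖ ^ 2 := by
    have : (1 : ℂ) - ((‖c‖ ^ 2 : ℝ) : ℂ) = ((1 - ‖c‖ ^ 2 : ℝ) : ℂ) := by push_cast; ring
    rw [this, Complex.norm_real, Real.norm_eq_abs, abs_of_nonneg]
    nlinarith [norm_nonneg c]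
  have h3 : 0 < 1 - ‖c‖ ^ 2 := by nlinarith [norm_nonneg c]
  rw [Bmap, norm_div, h2, div_le_iff₀ h3]
  have h4 : 1 + ‖c‖ ≤ 2 * (1 - ‖c‖ ^ 2) := by nlinarith [norm_nonneg c]
  nlinarith [norm_nonneg η, norm_nonneg c]

lemma norm_Amap {c : ℂ} (hc : ‖c‖ ≤ 1 / 2) (ξ : ℂ) : ‖Amap c ξ‖ ≤ 2 * ‖ξ‖ := by
  rw [Amap_apply]
  calc ‖ξ + c * (starRingEnd ℂ ξ)‖ ≤ ‖ξ‖ + ‖c * (starRingEnd ℂ ξ)‖ := norm_add_le _ _
    _ = ‖ξ‖ + ‖c‖ * ‖ξ‖ := by rw [norm_mul, RCLike.norm_conj]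
    _ ≤ 2 * ‖ξ‖ := by nlinarith [norm_nonneg ξ]

/-- The function of the area theorem. -/
noncomputable def FF (b : ℂ) (T : ℂ → ℂ) (z : ℂ) : ℂ := z⁻¹ + b * z + z ^ 2 * T z

lemma differentiableOn_FF (b : ℂ) {T : ℂ → ℂ} (hT : DifferentiableOn ℂ T (ball 0 1)) :
    DifferentiableOn ℂ (FF b T) (ball 0 1 \ {0}) := by
  have hT' := hT.mono (sdiff_subset (s := ball (0 : ℂ) 1) (t := {0}))
  unfold FF
  refine DifferentiableOn.add (DifferentiableOn.add ?_ (by fun_prop)) (by fun_prop)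
  intro z hz
  exact (differentiableAt_inv hz.2).differentiableWithinAt

lemma FF_subset {b : ℂ} {T : ℂ → ℂ} (hT : DifferentiableOn ℂ T (ball 0 1))
    (hinj : InjOn (FF b T) (ball 0 1 \ {0})) {M : ℝ} (hM : ∀ z, ‖z‖ ≤ 1 / 2 → ‖T z‖ ≤ M)
    {ρ s : ℝ} (hρ : 0 < ρ) (hρ2 : ρ ≤ 1 / 2) (hs : s < 1)
    (hbρ : ‖b‖ * ρ ^ 2 ≤ 1 / 2) :
    FF b T '' ring ρ s ⊆ Amap (b * ρ ^ 2) '' closedBall 0 (ρ⁻¹ + 2 * ρ ^ 2 * M) := by
  set c : ℂ := b * ρ ^ 2 with hcdef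
  have hM0 : 0 ≤ M := (norm_nonneg _).trans (hM 0 (by simp))
  have hcn : ‖c‖ ≤ 1 / 2 := by
    rw [hcdef, norm_mul, norm_pow, Complex.norm_real, Real.norm_eq_abs, abs_of_pos hρ]
    exact hbρ
  have hR : 0 < ρ⁻¹ + 2 * ρ ^ 2 * M := by positivity
  have hFd := differentiableOn_FF b hT
  have hsub1 : ball (0 : ℂ) ρ \ {0} ⊆ ball 0 1 \ {0} :=
    sdiff_subset_sdiff_left (ball_subset_ball (by linarith))
  have hcover := cover (Φ := fun z => Bmap c (FF b T z)) hρ hR ?_ ?_ ?_ ?_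
  · rintro _ ⟨z, hz, rfl⟩
    refine ⟨Bmap c (FF b T z), ?_, Amap_Bmap hcn _⟩
    by_contra hcon
    obtain ⟨z', hz', heq⟩ := hcover hcon
    have h1 : FF b T z' = FF b T z := by
      have := congrArg (Amap c) heq
      simpa only [Amap_Bmap hcn] using this
    have hzmem : z ∈ ball (0 : ℂ) 1 \ {0} := by
      refine ⟨by simpa using hz.2.trans hs, ?_⟩
      rintro rfl
      have := hz.1
      simp at this
      linarith
    have h2 := hinj (hsub1 hz') hzmem h1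
    rw [h2] at hz'
    have h3 : ‖z‖ < ρ := by simpa using hz'.1
    have := hz.1
    linarith
  · -- continuity
    have hFc : ContinuousOn (FF b T) (closedBall 0 ρ \ {0}) :=
      hFd.continuousOn.mono (sdiff_subset_sdiff_left (closedBall_subset_ball (by linarith)))
    have hB : Continuous (fun η => Bmap c η) := by
      unfold Bmap
      refine Continuous.div_const ?_ _
      exact continuous_id.sub (continuous_const.mul Complex.continuous_conj)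
    exact hB.comp_continuousOn hFc
  · -- openness
    have hopen : IsOpen (FF b T '' (ball 0 ρ \ {0})) :=
      isOpen_image_of_injOn (isOpen_ball.sdiff isClosed_singleton) (hFd.mono hsub1)
        (hinj.mono hsub1)
    have heq : (fun z => Bmap c (FF b T z)) '' (ball 0 ρ \ {0})
        = Amap c ⁻¹' (FF b T '' (ball 0 ρ \ {0})) := by
      ext y
      simp only [Set.mem_image, Set.mem_preimage]
      constructor
      · rintro ⟨z, hz, rfl⟩
        exact ⟨z, hz, (Amap_Bmap hcn _).symm⟩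
      · rintro ⟨z, hz, h⟩
        exact ⟨z, hz, by rw [h, Bmap_Amap hcn]⟩
    rw [heq]
    exact hopen.preimage (Amap c).continuous
  · -- bound on the circle
    intro z hz
    have hz0 : z ≠ 0 := by
      rintro rfl
      simp at hz
      exact hρ.ne hz
    have h1 : FF b T z = Amap c z⁻¹ + z ^ 2 * T z := by
      rw [Amap_apply, FF, hcdef]
      have h2 : (starRingEnd ℂ z) * z = (ρ : ℂ) ^ 2 := by
        rw [← Complex.normSq_eq_conj_mul_self, Complex.normSq_eq_norm_sq, hz]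
        push_cast
        ring
      have hzc : (starRingEnd ℂ z) ≠ 0 := by simpa using hz0
      rw [map_inv₀, ← h2]
      field_simp
    change ‖Bmap c (FF b T z)‖ ≤ _
    rw [h1, Bmap_add, Bmap_Amap hcn]
    refine (norm_add_le _ _).trans ?_
    rw [norm_inv, hz]
    gcongr
    refine (norm_Bmap hcn _).trans ?_
    rw [norm_mul, norm_pow, hz]
    have := hM z (by rw [hz]; exact hρ2)
    nlinarith [sq_nonneg ρ, mul_le_mul_of_nonneg_left this (sq_nonneg ρ)]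
  · -- growth at the pole
    intro N
    have hden : 0 < 2 * |N| + ‖b‖ + M + 1 := by positivity
    refine ⟨min (1 / 2) (2 * |N| + ‖b‖ + M + 1)⁻¹, by positivity, ?_⟩
    intro z hz0 hz
    have hz1 : ‖z‖ < 1 / 2 := hz.trans_le (min_le_left _ _)
    have hz2 : ‖z‖ < (2 * |N| + ‖b‖ + M + 1)⁻¹ := hz.trans_le (min_le_right _ _)
    have hzpos : 0 < ‖z‖ := norm_pos_iff.mpr hz0
    have h1 : 2 * |N| + ‖b‖ + M + 1 < ‖z‖⁻¹ := by
      rw [lt_inv_comm₀ hden hzpos]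
      exact hz2
    have h2 : ‖z‖⁻¹ ≤ ‖FF b T z‖ + ‖b‖ + M := by
      have h3 : z⁻¹ = FF b T z - b * z - z ^ 2 * T z := by
        rw [FF]; ring
      calc ‖z‖⁻¹ = ‖FF b T z - b * z - z ^ 2 * T z‖ := by rw [← h3, norm_inv]
        _ ≤ ‖FF b T z‖ + ‖b * z‖ + ‖z ^ 2 * T z‖ := by
            refine (norm_sub_le _ _).trans ?_
            gcongr
            exact norm_sub_le _ _
        _ ≤ ‖FF b T z‖ + ‖b‖ + M := by
            rw [norm_mul, norm_mul, norm_pow]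
            have h4 := hM z hz1.le
            have h5 : ‖b‖ * ‖z‖ ≤ ‖b‖ := mul_le_of_le_one_right (norm_nonneg _) (by linarith)
            have h6 : ‖z‖ ^ 2 * ‖T z‖ ≤ M := by
              have : ‖z‖ ^ 2 ≤ 1 := by nlinarith
              nlinarith [norm_nonneg (T z)]
            linarith
    have h7 : ‖FF b T z‖ ≤ 2 * ‖Bmap c (FF b T z)‖ := by
      have := norm_Amap hcn (Bmap c (FF b T z))
      rwa [Amap_Bmap hcn] at this
    have h8 : N ≤ |N| := le_abs_self N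
    change N < ‖Bmap c (FF b T z)‖
    linarith

lemma hasDerivAt_FF (b : ℂ) {T : ℂ → ℂ} (hT : DifferentiableOn ℂ T (ball 0 1)) {z : ℂ}
    (hz : z ∈ ball (0 : ℂ) 1) (hz0 : z ≠ 0) :
    HasDerivAt (FF b T) (-(z ^ 2)⁻¹ + b + deriv (fun z => z ^ 2 * T z) z) z := by
  have h1 : HasDerivAt (fun z : ℂ => z⁻¹) (-(z ^ 2)⁻¹) z := hasDerivAt_inv hz0
  have h2 : HasDerivAt (fun z : ℂ => b * z) b z := by
    simpa using (hasDerivAt_id z).const_mul b
  have h3 : HasDerivAt (fun z : ℂ => z ^ 2 * T z) (deriv (fun z => z ^ 2 * T z) z) z := by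
    have hTz : DifferentiableAt ℂ T z := hT.differentiableAt (isOpen_ball.mem_nhds hz)
    have : DifferentiableAt ℂ (fun z : ℂ => z ^ 2 * T z) z := by fun_prop
    exact this.hasDerivAt
  exact (h1.add h2).add h3

lemma area_ineq {b : ℂ} {T : ℂ → ℂ} (hT : DifferentiableOn ℂ T (ball 0 1))
    (hinj : InjOn (FF b T) (ball 0 1 \ {0})) {M : ℝ} (hM : ∀ z, ‖z‖ ≤ 1 / 2 → ‖T z‖ ≤ M)
    {ρ s : ℝ} (hρ : 0 < ρ) (hρ2 : ρ ≤ 1 / 2) (hρs : ρ < s) (hs : s < 1)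
    (hbρ : ‖b‖ * ρ ^ 2 ≤ 1 / 2) :
    ((ρ ^ 2)⁻¹ - (s ^ 2)⁻¹) + ‖b‖ ^ 2 * (s ^ 2 - ρ ^ 2) ≤ (ρ⁻¹ + 2 * ρ ^ 2 * M) ^ 2 := by
  have hM0 : 0 ≤ M := (norm_nonneg _).trans (hM 0 (by simp))
  set e : ℂ → ℂ := deriv (fun z => z ^ 2 * T z) with he
  have hzT : DifferentiableOn ℂ (fun z => z ^ 2 * T z) (ball 0 1) := by fun_prop
  have hed : DifferentiableOn ℂ e (ball 0 1) := hzT.deriv isOpen_ball
  have he0 : e 0 = 0 := by
    rw [he]
    have hT0 : DifferentiableAt ℂ T 0 :=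
      hT.differentiableAt (isOpen_ball.mem_nhds (mem_ball_self one_pos))
    have h1 : HasDerivAt (fun z : ℂ => z ^ 2) (2 * 0) 0 := by
      simpa using hasDerivAt_pow 2 (0 : ℂ)
    have h2 : HasDerivAt (fun z : ℂ => z ^ 2 * T z) (2 * 0 * T 0 + 0 ^ 2 * deriv T 0) 0 :=
      h1.mul hT0.hasDerivAt
    rw [h2.deriv]
    simp
  have hlow := area_lower hed he0 b hρ hρs hs
  have hmeas : MeasurableSet (ring ρ s) := (isOpen_ring ρ s).measurableSet
  have hsubr : ring ρ s ⊆ ball (0 : ℂ) 1 \ {0} := by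
    intro z hz
    refine ⟨by simpa using hz.2.trans hs, ?_⟩
    rintro rfl
    have := hz.1
    simp at this
    linarith
  have harea := lintegral_abs_det_fderiv_eq_addHaar_image (volume : Measure ℂ) hmeas
    (f := FF b T)
    (f' := fun z => ((ContinuousLinearMap.toSpanSingleton ℂ
      (-(z ^ 2)⁻¹ + b + e z) : ℂ →L[ℂ] ℂ)).restrictScalars ℝ)
    (fun z hz => by
      have h := hasDerivAt_FF b hT (hsubr hz).1 (hsubr hz).2
      exact (h.hasFDerivAt.restrictScalars ℝ).hasFDerivWithinAt)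
    (hinj.mono hsubr)
  have hint : ∫⁻ z in ring ρ s, ENNReal.ofReal (‖-(z ^ 2)⁻¹ + b + e z‖ ^ 2)
      = volume (FF b T '' ring ρ s) := by
    rw [← harea]
    apply lintegral_congr
    intro z
    rw [det_mul, abs_of_nonneg (by positivity)]
  have hup : volume (FF b T '' ring ρ s)
      ≤ ENNReal.ofReal (π * (ρ⁻¹ + 2 * ρ ^ 2 * M) ^ 2) := by
    refine (measure_mono (FF_subset hT hinj hM hρ hρ2 hs hbρ)).trans ?_
    rw [Measure.addHaar_image_continuousLinearMap]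
    change ENNReal.ofReal |(Amap (b * (ρ : ℂ) ^ 2)).det| * _ ≤ _
    rw [det_Amap, Complex.volume_closedBall]
    have hcn : ‖b * (ρ : ℂ) ^ 2‖ ≤ 1 / 2 := by
      rw [norm_mul, norm_pow, Complex.norm_real, Real.norm_eq_abs, abs_of_pos hρ]
      exact hbρ
    have h1 : |1 - ‖b * (ρ : ℂ) ^ 2‖ ^ 2| ≤ 1 := by
      rw [abs_le]
      constructor <;> nlinarith [norm_nonneg (b * (ρ : ℂ) ^ 2)]
    have hR : 0 ≤ ρ⁻¹ + 2 * ρ ^ 2 * M := by positivity
    rw [← ENNReal.ofReal_pow hR]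
    have hpi : (NNReal.pi : ENNReal) = ENNReal.ofReal π := by
      rw [← NNReal.coe_real_pi, ENNReal.ofReal_coe_nnreal]
    rw [hpi, mul_comm π, ENNReal.ofReal_mul (by positivity)]
    calc _ ≤ ENNReal.ofReal 1 * (ENNReal.ofReal ((ρ⁻¹ + 2 * ρ ^ 2 * M) ^ 2)
          * ENNReal.ofReal π) := by gcongr
      _ = _ := by rw [ENNReal.ofReal_one, one_mul]
  rw [hint] at hlow
  have h := hlow.trans hup
  have hpos : 0 ≤ π * (ρ⁻¹ + 2 * ρ ^ 2 * M) ^ 2 := by positivity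
  rw [ENNReal.ofReal_le_ofReal_iff hpos] at h
  have hpi : 0 < π := Real.pi_pos
  nlinarith [h, hpi]

end Pool.Agent.Helper80.Bieb
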