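import Mathlib
import Pool.Agent.Helper80.Bieb.Area

/-!
# Bieberbach's inequality `|a_2| ≤ 2`
-/

open Complex MeasureTheory Set Metric Real

namespace Pool.Agent.Helper80.Bieb

theorem area_main {b : ℂ} {T : ℂ → ℂ} (hT : DifferentiableOn ℂ T (ball 0 1))
    (hinj : InjOn (FF b T) (ball 0 1 \ {0})) : ‖b‖ ≤ 1 := by
  obtain ⟨M, hM⟩ : ∃ M : ℝ, ∀ z, ‖z‖ ≤ 1 / 2 → ‖T z‖ ≤ M := by
    have hc : ContinuousOn T (closedBall 0 (1 / 2)) :=
      hT.continuousOn.mono (closedBall_subset_ball (by norm_num))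
    obtain ⟨M, hM⟩ := (isCompact_closedBall (0 : ℂ) (1 / 2)).exists_bound_of_continuousOn hc
    exact ⟨M, fun z hz => hM z (by simpa using hz)⟩
  have hM0 : 0 ≤ M := (norm_nonneg _).trans (hM 0 (by simp))
  -- first limit: `ρ → 0`
  have key : ∀ s : ℝ, 0 < s → s < 1 → ‖b‖ ^ 2 * s ^ 2 - (s ^ 2)⁻¹ ≤ 0 := by
    intro s hs0 hs1
    have hev : ∀ᶠ ρ : ℝ in nhdsWithin 0 (Ioi 0),
        ‖b‖ ^ 2 * s ^ 2 - (s ^ 2)⁻¹ ≤ ‖b‖ ^ 2 * ρ ^ 2 + 4 * M * ρ + 4 * M ^ 2 * ρ ^ 4 := by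
      have h1 : ∀ᶠ ρ : ℝ in nhdsWithin 0 (Ioi 0), ρ < 1 / 2 :=
        mem_nhdsWithin_of_mem_nhds (Iio_mem_nhds (by norm_num))
      have h2 : ∀ᶠ ρ : ℝ in nhdsWithin 0 (Ioi 0), ρ < s :=
        mem_nhdsWithin_of_mem_nhds (Iio_mem_nhds hs0)
      have h3 : ∀ᶠ ρ : ℝ in nhdsWithin 0 (Ioi 0), ‖b‖ * ρ ^ 2 < 1 / 2 := by
        have hcont : Filter.Tendsto (fun ρ : ℝ => ‖b‖ * ρ ^ 2) (nhds 0) (nhds (‖b‖ * 0 ^ 2)) := by
          apply Continuous.tendsto
          fun_prop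
        exact (Filter.Tendsto.eventually_lt_const (by norm_num) hcont).filter_mono
          nhdsWithin_le_nhds
      filter_upwards [h1, h2, h3, self_mem_nhdsWithin] with ρ h1 h2 h3 hρ
      have hρ' : 0 < ρ := hρ
      have h := area_ineq hT hinj hM hρ' h1.le h2 hs1 h3.le
      have h4 : (ρ⁻¹ + 2 * ρ ^ 2 * M) ^ 2 = (ρ ^ 2)⁻¹ + 4 * M * ρ + 4 * M ^ 2 * ρ ^ 4 := by
        field_simp
        ring
      rw [h4] at h
      linarith
    have hlim : Filter.Tendsto (fun ρ : ℝ => ‖b‖ ^ 2 * ρ ^ 2 + 4 * M * ρ + 4 * M ^ 2 * ρ ^ 4)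
        (nhdsWithin 0 (Ioi 0)) (nhds 0) := by
      have : Filter.Tendsto (fun ρ : ℝ => ‖b‖ ^ 2 * ρ ^ 2 + 4 * M * ρ + 4 * M ^ 2 * ρ ^ 4)
          (nhds 0) (nhds (‖b‖ ^ 2 * 0 ^ 2 + 4 * M * 0 + 4 * M ^ 2 * 0 ^ 4)) := by
        apply Continuous.tendsto
        fun_prop
      simp only [ne_eq, OfNat.ofNat_ne_zero, not_false_eq_true, zero_pow, mul_zero,
        add_zero] at this
      exact this.mono_left nhdsWithin_le_nhds
    exact ge_of_tendsto hlim hev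
  -- second limit: `s → 1`
  have hlim : Filter.Tendsto (fun s : ℝ => ‖b‖ ^ 2 * s ^ 2 - (s ^ 2)⁻¹)
      (nhdsWithin 1 (Iio 1)) (nhds (‖b‖ ^ 2 * 1 ^ 2 - (1 ^ 2)⁻¹)) := by
    have : ContinuousAt (fun s : ℝ => ‖b‖ ^ 2 * s ^ 2 - (s ^ 2)⁻¹) 1 := by
      refine ContinuousAt.sub (by fun_prop) (ContinuousAt.inv₀ (by fun_prop) (by norm_num))
    exact this.tendsto.mono_left nhdsWithin_le_nhds
  have hle : ‖b‖ ^ 2 * 1 ^ 2 - (1 ^ 2)⁻¹ ≤ 0 := by
    apply le_of_tendsto hlim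
    have h1 : ∀ᶠ s : ℝ in nhdsWithin 1 (Iio 1), 0 < s :=
      mem_nhdsWithin_of_mem_nhds (Ioi_mem_nhds (by norm_num))
    filter_upwards [h1, self_mem_nhdsWithin] with s hs0 hs1
    exact key s hs0 hs1
  have h2 : ‖b‖ ^ 2 ≤ 1 ^ 2 := by
    norm_num at hle ⊢
    linarith
  exact (abs_le_of_sq_le_sq' h2 (by norm_num)).2

/-- A square root of `1 / ψ`. -/
lemma exists_sqrt_inv {ψ : ℂ → ℂ} (hψ : DifferentiableOn ℂ ψ (ball 0 1))
    (h0 : ∀ z ∈ ball (0 : ℂ) 1, ψ z ≠ 0) (h1 : ψ 0 = 1) :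
    ∃ S : ℂ → ℂ, DifferentiableOn ℂ S (ball 0 1) ∧ (∀ z ∈ ball (0 : ℂ) 1, S z ^ 2 * ψ z = 1) ∧
      S 0 = 1 ∧ deriv S 0 = -(deriv ψ 0) / 2 := by
  have hq : DifferentiableOn ℂ (fun z => deriv ψ z / ψ z) (ball 0 1) :=
    (hψ.deriv isOpen_ball).div hψ h0
  obtain ⟨L₀, hL₀⟩ := hq.isExactOn_ball
  set L : ℂ → ℂ := fun z => L₀ z - L₀ 0 with hL
  have hLd : ∀ z ∈ ball (0 : ℂ) 1, HasDerivAt L (deriv ψ z / ψ z) z := by
    intro z hz
    exact (hL₀ z hz).sub_const _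
  have hmem0 : (0 : ℂ) ∈ ball (0 : ℂ) 1 := mem_ball_self one_pos
  have hSd : ∀ z ∈ ball (0 : ℂ) 1,
      HasDerivAt (fun z => Complex.exp (-L z / 2))
        (Complex.exp (-L z / 2) * (-(deriv ψ z / ψ z) / 2)) z := by
    intro z hz
    exact ((hLd z hz).neg.div_const 2).cexp
  refine ⟨fun z => Complex.exp (-L z / 2), ?_, ?_, ?_, ?_⟩
  · intro z hz
    exact (hSd z hz).differentiableAt.differentiableWithinAt
  · intro z hz
    have hc : ∀ z ∈ ball (0 : ℂ) 1,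
        HasDerivAt (fun z => Complex.exp (-L z / 2) ^ 2 * ψ z) 0 z := by
      intro z hz
      have hψz : HasDerivAt ψ (deriv ψ z) z :=
        (hψ.differentiableAt (isOpen_ball.mem_nhds hz)).hasDerivAt
      have h := ((hSd z hz).pow 2).mul hψz
      refine h.congr_deriv ?_
      have := h0 z hz
      simp only [Pi.pow_apply]
      field_simp
      ring
    have hconst := isOpen_ball.is_const_of_deriv_eq_zero (𝕜 := ℂ)
      (f := fun z => Complex.exp (-L z / 2) ^ 2 * ψ z) (s := ball (0 : ℂ) 1)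
      (convex_ball 0 1).isPreconnected
      (fun z hz => (hc z hz).differentiableAt.differentiableWithinAt)
      (fun z hz => (hc z hz).deriv) hz hmem0
    rw [hconst]
    simp [hL, h1]
  · simp [hL]
  · rw [(hSd 0 hmem0).deriv, h1]
    simp [hL]

theorem bieberbach {φ : ℂ → ℂ} (hd : DifferentiableOn ℂ φ (ball 0 1))
    (hi : InjOn φ (ball 0 1)) (h0 : φ 0 = 0) (h1 : deriv φ 0 = 1) :
    ‖deriv (deriv φ) 0‖ ≤ 4 := by
  have hmem0 : (0 : ℂ) ∈ ball (0 : ℂ) 1 := mem_ball_self one_pos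
  have hnhds : ball (0 : ℂ) 1 ∈ nhds (0 : ℂ) := isOpen_ball.mem_nhds hmem0
  set ψ : ℂ → ℂ := dslope φ 0 with hψdef
  have hψ : DifferentiableOn ℂ ψ (ball 0 1) :=
    (Complex.differentiableOn_dslope hnhds).mpr hd
  have hφψ : ∀ z, φ z = z * ψ z := by
    intro z
    have := sub_smul_dslope φ 0 z
    rw [h0, sub_zero, sub_zero, smul_eq_mul] at this
    exact this.symm
  have hψ0 : ψ 0 = 1 := by
    rw [hψdef, dslope_same, h1]
  have hψne : ∀ z ∈ ball (0 : ℂ) 1, ψ z ≠ 0 := by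
    intro z hz hcon
    have h2 : φ z = φ 0 := by rw [hφψ z, hcon, mul_zero, h0]
    have h3 := hi hz hmem0 h2
    rw [h3, hψ0] at hcon
    exact one_ne_zero hcon
  -- second derivative
  have hψ' : deriv ψ 0 = deriv (deriv φ) 0 / 2 := by
    have h2 : deriv φ =ᶠ[nhds 0] fun z => ψ z + z * deriv ψ z := by
      filter_upwards [hnhds] with z hz
      have hψz : HasDerivAt ψ (deriv ψ z) z :=
        (hψ.differentiableAt (isOpen_ball.mem_nhds hz)).hasDerivAt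
      have h3 := (hasDerivAt_id z).mul hψz
      have h4 : φ = fun z => id z * ψ z := by
        funext z
        exact hφψ z
      have h5 : HasDerivAt φ (1 * ψ z + id z * deriv ψ z) z := by
        rw [h4]
        exact h3
      rw [h5.deriv]
      simp
    rw [h2.deriv_eq]
    have hψ2 : HasDerivAt ψ (deriv ψ 0) 0 := (hψ.differentiableAt hnhds).hasDerivAt
    have hψ3 : HasDerivAt (deriv ψ) (deriv (deriv ψ) 0) 0 :=
      ((hψ.deriv isOpen_ball).differentiableAt hnhds).hasDerivAt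
    have h6 : HasDerivAt (fun z => ψ z + z * deriv ψ z)
        (deriv ψ 0 + (1 * deriv ψ 0 + 0 * deriv (deriv ψ) 0)) 0 :=
      hψ2.add ((hasDerivAt_id (0 : ℂ)).mul hψ3)
    rw [h6.deriv]
    ring
  obtain ⟨S, hS, hSψ, hS0, hS'⟩ := exists_sqrt_inv hψ hψne hψ0
  set β : ℂ := deriv S 0 with hβ
  set S₁ : ℂ → ℂ := dslope S 0 with hS₁
  have hS₁d : DifferentiableOn ℂ S₁ (ball 0 1) := (Complex.differentiableOn_dslope hnhds).mpr hS
  set S₂ : ℂ → ℂ := dslope S₁ 0 with hS₂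
  have hS₂d : DifferentiableOn ℂ S₂ (ball 0 1) := (Complex.differentiableOn_dslope hnhds).mpr hS₁d
  have hSexp : ∀ x, S x = 1 + β * x + x ^ 2 * S₂ x := by
    intro x
    have h2 := sub_smul_dslope S 0 x
    have h3 := sub_smul_dslope S₁ 0 x
    have h4 : S₁ 0 = β := by rw [hS₁, dslope_same]
    rw [sub_zero, smul_eq_mul, hS0] at h2
    rw [sub_zero, smul_eq_mul, h4] at h3
    rw [← hS₁] at h2
    rw [← hS₂] at h3
    linear_combination (-1 : ℂ) * h2 - x * h3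
  have hsq : ∀ z ∈ ball (0 : ℂ) 1, z ^ 2 ∈ ball (0 : ℂ) 1 := by
    intro z hz
    have hz' : ‖z‖ < 1 := by simpa using hz
    have : ‖z ^ 2‖ < 1 := by
      rw [norm_pow]
      exact pow_lt_one₀ (norm_nonneg _) hz' two_ne_zero
    simpa using this
  set T : ℂ → ℂ := fun z => z * S₂ (z ^ 2) with hTdef
  have hT : DifferentiableOn ℂ T (ball 0 1) := by
    refine DifferentiableOn.mul differentiableOn_id ?_
    exact hS₂d.comp (by fun_prop) hsq
  have hFF : ∀ z, z ≠ 0 → FF β T z = S (z ^ 2) / z := by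
    intro z hz
    rw [FF, hTdef, hSexp]
    field_simp
  have hFsq : ∀ z ∈ ball (0 : ℂ) 1 \ {0}, FF β T z ^ 2 * φ (z ^ 2) = 1 := by
    intro z hz
    have hz0 : z ≠ 0 := hz.2
    rw [hFF z hz0, hφψ (z ^ 2)]
    have := hSψ (z ^ 2) (hsq z hz.1)
    field_simp
    linear_combination this
  have hinj : InjOn (FF β T) (ball 0 1 \ {0}) := by
    intro z hz w hw h
    have hz0 : z ≠ 0 := hz.2
    have hw0 : w ≠ 0 := hw.2
    have h2 := hFsq z hz
    have h3 := hFsq w hw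
    have hFne : FF β T w ≠ 0 := by
      intro h4
      rw [h4] at h3
      simp at h3
    rw [h] at h2
    have h5 : φ (z ^ 2) = φ (w ^ 2) := by
      have : FF β T w ^ 2 * φ (z ^ 2) = FF β T w ^ 2 * φ (w ^ 2) := by rw [h2, h3]
      exact mul_left_cancel₀ (pow_ne_zero 2 hFne) this
    have h6 := hi (hsq z hz.1) (hsq w hw.1) h5
    rcases sq_eq_sq_iff_eq_or_eq_neg.mp h6 with h7 | h7
    · exact h7
    · exfalso
      have h8 : FF β T z = -FF β T w := by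
        rw [hFF z hz0, hFF w hw0, h6, h7]
        rw [div_neg]
      rw [h] at h8
      have h9 : FF β T w = 0 := by
        have : (2 : ℂ) * FF β T w = 0 := by linear_combination h8
        simpa using this
      exact hFne h9
  have hfin := area_main hT hinj
  rw [hS', hψ'] at hfin
  have h10 : ‖-(deriv (deriv φ) 0 / 2) / 2‖ = ‖deriv (deriv φ) 0‖ / 4 := by
    rw [norm_div, norm_neg, norm_div]
    simp
    ring
  rw [h10] at hfin
  linarith

end Pool.Agent.Helper80.Bieb
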